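import Pool.Agent.Helper66.TRS.Defs
import Pool.Agent.Helper66.TR.FDefs

/-!
# Comparison of the unbundled definitions with the bundled ones
-/

set_option autoImplicit false

universe u

namespace Pool.Agent.Helper66.TRS

open Pool.Agent.Helper66.TR

section

variable {k : Type u} [Field k]

lemma mem_Ind {n : ℕ} {F : G k → k} : F ∈ Ind k n ↔ InInd n F := Iff.rfl

lemma isInduced_indRep (n : ℕ) : IsInduced n (indRep k n) := by
  refine ⟨(Ind k n).subtype, Subtype.val_injective, fun F => ⟨fun h => ⟨⟨F, h⟩, rfl⟩, ?_⟩, ?_⟩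
  · rintro ⟨x, rfl⟩
    exact x.2
  · intro g x h
    rfl

/-- an induced module is isomorphic to the standard one -/
lemma IsInduced.equiv {E : Type u} [AddCommGroup E] [Module k E] {n : ℕ}
    {τ : Representation k (G k) E} (h : IsInduced n τ) :
    ∃ e : E ≃ₗ[k] Ind k n, ∀ g x, e (τ g x) = indRep k n g (e x) := by
  obtain ⟨f, hf, hr, he⟩ := h
  have hmem : ∀ x, f x ∈ Ind k n := fun x => (hr (f x)).2 ⟨x, rfl⟩
  let f' : E →ₗ[k] Ind k n := f.codRestrict (Ind k n) hmem
  have hf' : Function.Bijective f' := by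
    constructor
    · intro x y hxy
      exact hf (congrArg Subtype.val hxy)
    · intro F
      obtain ⟨x, hx⟩ := (hr F.1).1 F.2
      exact ⟨x, Subtype.ext hx⟩
  refine ⟨LinearEquiv.ofBijective f' hf', fun g x => ?_⟩
  apply Subtype.ext
  funext h
  exact he g x h

end

section

variable {k : Type u} [Field k] {V : Type*} [AddCommGroup V] [Module k V]

lemma good_iff (ρ : Representation k (G k) V) (X : Submodule k V) :
    HasGoodFiltration ρ X ↔ TR.HasGoodFiltration ρ X := by
  constructor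
  · rintro ⟨N, h0, hs, hl, hX⟩
    refine ⟨N, h0, hs, fun i => ?_, hX⟩
    rcases hl i with h | ⟨n, E, _, _, τ, hτ, hAB, f, f1, f2, f3⟩
    · exact Or.inl h
    · right
      obtain ⟨e, he⟩ := hτ.equiv
      refine ⟨n, hAB, e.toLinearMap ∘ₗ f, e.surjective.comp f1, fun x => ?_, fun g x y h => ?_⟩
      · rw [← f2 x]
        change e (f x) = 0 ↔ _
        exact e.map_eq_zero_iff
      · change e (f y) = indRep k n g (e (f x))
        rw [f3 g x y h, he]
  · rintro ⟨N, h0, hs, hl, hX⟩
    refine ⟨N, h0, hs, fun i => ?_, hX⟩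
    rcases hl i with h | ⟨n, hn⟩
    · exact Or.inl h
    · exact Or.inr ⟨n, Ind k n, inferInstance, inferInstance, indRep k n, isInduced_indRep n, hn⟩

lemma weyl_of (ρ : Representation k (G k) V) (X : Submodule k V) :
    TR.HasWeylFiltration ρ X → HasWeylFiltration ρ X := by
  rintro ⟨N, h0, hs, hl, hX⟩
  refine ⟨N, h0, hs, fun i => ?_, hX⟩
  rcases hl i with h | ⟨n, hn⟩
  · exact Or.inl h
  · exact Or.inr ⟨n, Ind k n, inferInstance, inferInstance, indRep k n, isInduced_indRep n, hn⟩

lemma tilting_of (ρ : Representation k (G k) V) (h : TR.IsTilting ρ) : IsTilting ρ :=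
  ⟨h.finite, h.rational, (good_iff ρ ⊤).2 h.good, weyl_of ρ ⊤ h.weyl⟩

end

end Pool.Agent.Helper66.TRS
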