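import Pool.Agent.Helper66.TR.IndTh
import Pool.Agent.Helper66.TR.Tilt
import Pool.Agent.Helper66.TRS.Conv

/-!
# Non-vacuity check for the hypotheses of `TiltingCoversSLTwo`

For `S = k` with the trivial action and `M = ∇(n)` all hypotheses hold.
-/

set_option autoImplicit false

universe u

namespace Pool.Agent.Helper66.TRS

open Pool.Agent.Helper66.TR

section

variable {k : Type u} [Field k]

lemma good_ind (n : ℕ) : HasGoodFiltration (indRep k n) ⊤ := by
  rw [good_iff]
  refine ⟨fun i => if i = 0 then ⊥ else ⊤, by simp, fun i => ?_, fun i => ?_, ?_⟩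
  · by_cases hi : i = 0
    · simp only [hi, if_true]
      intro g v hv
      rw [Submodule.mem_bot] at hv ⊢
      rw [hv, map_zero]
    · simp only [hi, if_false]
      intro g v _
      trivial
  · by_cases hi : i = 0
    · right
      refine ⟨n, ?_⟩
      simp only [hi, if_true, zero_add, one_ne_zero, if_false]
      refine ⟨bot_le, (⊤ : Submodule k (Ind k n)).subtype, fun x => ⟨⟨x, trivial⟩, rfl⟩,
        fun x => ?_, fun g x y h => h⟩
      rw [Submodule.mem_bot]
      rfl
    · left
      simp [hi]
  · apply le_antisymm le_top
    exact le_iSup_of_le 1 (by simp)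

lemma good_triv [Infinite k] : HasGoodFiltration (Representation.trivial k (G k) k) ⊤ := by
  rw [good_iff]
  refine ⟨fun i => if i = 0 then ⊥ else ⊤, by simp, fun i => ?_, fun i => ?_, ?_⟩
  · by_cases hi : i = 0
    · simp only [hi, if_true]
      intro g v hv
      exact hv
    · simp only [hi, if_false]
      intro g v _
      trivial
  · by_cases hi : i = 0
    · right
      refine ⟨0, ?_⟩
      simp only [hi, if_true, zero_add, one_ne_zero, if_false]
      refine ⟨bot_le, (LinearMap.toSpanSingleton k (Ind k 0) (eb k 0 0 le_rfl)) ∘ₗ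
        (⊤ : Submodule k k).subtype, ?_, fun x => ?_, fun g x y h => ?_⟩
      · have h1 : LinearMap.range (LinearMap.toSpanSingleton k (Ind k 0) (eb k 0 0 le_rfl)) = ⊤ := by
          apply ind_span
          intro i hi
          have : i = 0 := by omega
          subst this
          exact ⟨1, by simp⟩
        intro F
        obtain ⟨c, hc⟩ : F ∈ LinearMap.range
          (LinearMap.toSpanSingleton k (Ind k 0) (eb k 0 0 le_rfl)) := by rw [h1]; trivial
        exact ⟨⟨c, trivial⟩, hc⟩
      · rw [Submodule.mem_bot]
        change (x : k) • eb k 0 0 le_rfl = 0 ↔ _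
        rw [smul_eq_zero]
        exact ⟨fun h => h.resolve_right (eb_zero_ne 0), Or.inl⟩
      · have h' : (y : k) = x := h
        change (y : k) • eb k 0 0 le_rfl = indRep k 0 g ((x : k) • eb k 0 0 le_rfl)
        rw [map_smul, h']
        congr 1
        apply Subtype.ext
        funext h
        change (eb k 0 0 le_rfl).1 h = (eb k 0 0 le_rfl).1 (g⁻¹ * h)
        rw [eb_apply, eb_apply]
        simp
    · left
      simp [hi]
  · apply le_antisymm le_top
    exact le_iSup_of_le 1 (by simp)

/-- all hypotheses on `S` and `M` of `TiltingCoversSLTwo` hold for `S = k`, `M = ∇(n)` -/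
lemma check [Infinite k] (n : ℕ) :
    IsMul (Representation.trivial k (G k) k) ∧ IsRational (Representation.trivial k (G k) k) ∧
      HasGoodFiltration (Representation.trivial k (G k) k) ⊤ ∧
      IsEquivModule (Representation.trivial k (G k) k) (indRep k n) ∧
      IsRational (indRep k n) ∧ HasGoodFiltration (indRep k n) ⊤ :=
  ⟨fun _ _ _ => rfl, isRational_trivial, good_triv,
    fun g s m => map_smul (indRep k n g) s m, isRational_ind n, good_ind n⟩

end

end Pool.Agent.Helper66.TRS
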