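import Pool.Agent.Helper66.TR.Defs

/-!
# Good filtrations, Weyl filtrations and tilting modules for `SL₂(k)`

The induced modules are described without a bundled representation: `InInd n F` says that the
function `F` on `SL₂(k)` lies in `ind_B^G(n)`, and `IsInduced n τ` says that the representation
`τ` is isomorphic to `ind_B^G(n)`.
-/

set_option autoImplicit false

universe u

namespace Pool.Agent.Helper66.TRS

open Pool.Agent.Helper66.TR

section

variable {k : Type u} [Field k]

/-- `F` lies in the induced module `∇(n) = ind_B^G(n)`: it is a regular function on `G = SL₂(k)`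
and `F (g b) = λ(b)⁻¹ F g` for `b` in the group `B` of lower triangular matrices, where
`λ(b) = z ^ n` for `b` with diagonal entries `z, z⁻¹`. -/
def InInd (n : ℕ) (F : G k → k) : Prop :=
  (∃ P : MvPolynomial (Fin 2 × Fin 2) k,
      ∀ g : G k, F g = MvPolynomial.eval (fun p => g.1 p.1 p.2) P) ∧
    ∀ (g : G k) (c : k) (z : kˣ), F (g * (lo c * tor z)) = ((z⁻¹ : kˣ) : k) ^ n * F g

/-- The representation `τ` is isomorphic to the induced module `∇(n)`, on which the group acts
by `(g F) (h) = F (g⁻¹ h)`. -/
def IsInduced {E : Type u} [AddCommGroup E] [Module k E] (n : ℕ)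
    (τ : Representation k (G k) E) : Prop :=
  ∃ f : E →ₗ[k] (G k → k), Function.Injective f ∧ (∀ F : G k → k, InInd n F ↔ ∃ x, f x = F) ∧
    ∀ (g : G k) (x : E) (h : G k), f (τ g x) h = f x (g⁻¹ * h)

end

section

variable {k : Type*} [Field k] {V E : Type*} [AddCommGroup V] [Module k V] [AddCommGroup E]
  [Module k E]

/-- `B / A` is isomorphic to the representation `τ`. -/
def IsLayer (τ : Representation k (G k) E) (ρ : Representation k (G k) V)
    (A B : Submodule k V) : Prop :=
  A ≤ B ∧ ∃ f : B →ₗ[k] E, Function.Surjective f ∧ (∀ x : B, f x = 0 ↔ (x : V) ∈ A) ∧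
    ∀ (g : G k) (x y : B), (y : V) = ρ g x → f y = τ g (f x)

end

section

variable {k : Type u} [Field k] {V : Type*} [AddCommGroup V] [Module k V]

/-- The subspace `X` has an exhaustive ascending filtration by stable subspaces whose
subquotients are induced modules. -/
def HasGoodFiltration (ρ : Representation k (G k) V) (X : Submodule k V) : Prop :=
  ∃ N : ℕ → Submodule k V, N 0 = ⊥ ∧ (∀ i, Stable ρ (N i)) ∧
    (∀ i, N i = N (i + 1) ∨ ∃ (n : ℕ) (E : Type u) (_ : AddCommGroup E) (_ : Module k E)
      (τ : Representation k (G k) E), IsInduced n τ ∧ IsLayer τ ρ (N i) (N (i + 1))) ∧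
    ⨆ i, N i = X

/-- The same for the Weyl modules, the duals of the induced modules. -/
def HasWeylFiltration (ρ : Representation k (G k) V) (X : Submodule k V) : Prop :=
  ∃ N : ℕ → Submodule k V, N 0 = ⊥ ∧ (∀ i, Stable ρ (N i)) ∧
    (∀ i, N i = N (i + 1) ∨ ∃ (n : ℕ) (E : Type u) (_ : AddCommGroup E) (_ : Module k E)
      (τ : Representation k (G k) E), IsInduced n τ ∧ IsLayer τ.dual ρ (N i) (N (i + 1))) ∧
    ⨆ i, N i = X

/-- Tilting modules. -/
structure IsTilting (ρ : Representation k (G k) V) : Prop where
  finite : Module.Finite k V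
  rational : IsRational ρ
  good : HasGoodFiltration ρ ⊤
  weyl : HasWeylFiltration ρ ⊤

end

end Pool.Agent.Helper66.TRS
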